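import Pool.Agent.Lib.MP_a4c586_co.CubeAvoid

/-!
# K_{t,t}-free graphs with an elementary abelian 2-group of automorphisms (any action)
-/

set_option autoImplicit false

namespace Pool.Agent.Lib.MP_a4c586_co.AnyAction

open Finset Pool.Agent.Lib.FTG

/-- Power mean for natural numbers. -/
theorem pow_mean {ι : Type*} (s : Finset ι) (f : ι → ℕ) (m : ℕ) (hm : 1 ≤ m) :
    (∑ i ∈ s, f i) ^ m ≤ s.card ^ (m - 1) * ∑ i ∈ s, f i ^ m := by
  obtain ⟨j, rfl⟩ : ∃ j, m = j + 1 := ⟨m - 1, by omega⟩
  rw [Nat.add_sub_cancel]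
  rcases s.eq_empty_or_nonempty with rfl | hs
  · simp
  have h := pow_sum_div_card_le_sum_pow (s := s) (f := fun i => (f i : ℝ)) (n := j)
    (fun i _ => by positivity)
  have hc : (0 : ℝ) < (s.card : ℝ) ^ j := by
    have : 0 < s.card := hs.card_pos
    positivity
  rw [div_le_iff₀ hc] at h
  have h2 : ((∑ i ∈ s, f i : ℕ) : ℝ) ^ (j + 1) ≤
      ((s.card ^ j * ∑ i ∈ s, f i ^ (j + 1) : ℕ) : ℝ) := by
    push_cast
    rw [mul_comm]
    exact h
  exact_mod_cast h2

variable {V E : Type*} [CommGroup E] [Fintype E] [MulAction E V]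
  (G : SimpleGraph V) [DecidableRel G.Adj]

open Classical in
/-- The bound for two vertices. -/
theorem local_bound (k t : ℕ) (ht : t ≤ 2 ^ (k + 1))
    (hG : (completeBipartiteGraph (Fin t) (Fin t)).Free G)
    (hE : ∀ g : E, g * g = 1) (haut : ∀ (g : E) (x y : V), G.Adj x y → G.Adj (g • x) (g • y))
    (x y : V) :
    (univ.filter fun g : E => G.Adj x (g • y)).card ^ (2 ^ k) ≤
      2 ^ k * (((univ.filter fun g : E => g • x = x).card - 1) +
        (univ.filter fun g : E => g • y = y).card) * (2 * Fintype.card E) ^ (2 ^ k - 1) := by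
  by_contra hcon
  push Not at hcon
  set S : Finset E := univ.filter fun g : E => G.Adj x (g • y) with hS
  set Bx : Finset E := univ.filter fun g : E => g • x = x with hBx
  set By : Finset E := univ.filter fun g : E => g • y = y with hBy
  have h1x : (1 : E) ∈ Bx := by simp [hBx]
  have h1y : (1 : E) ∈ By := by simp [hBy]
  have hBc : (Bx ∪ By).card ≤ (Bx.card - 1) + By.card := by
    have h1 := card_union_add_card_inter Bx By
    have h2 : 0 < (Bx ∩ By).card := card_pos.2 ⟨1, mem_inter.2 ⟨h1x, h1y⟩⟩
    have h3 : 0 < Bx.card := card_pos.2 ⟨1, h1x⟩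
    omega
  have hkey : 2 ^ (0 + k) * (Bx ∪ By).card * (2 * Fintype.card E) ^ (2 ^ k - 1) <
      S.card ^ (2 ^ k) := by
    rw [zero_add]
    refine lt_of_le_of_lt ?_ hcon
    exact Nat.mul_le_mul_right _ (Nat.mul_le_mul_left _ hBc)
  obtain ⟨H, hH, hHB, s, hs⟩ := cube_avoid hE (Bx ∪ By) (mem_union_left _ h1x) k 0 ⊥ S
    (by simp) (fun g hg _ => Subgroup.mem_bot.1 hg) (by
      intro s hs h hh
      rw [Subgroup.mem_bot] at hh
      rw [hh, mul_one]
      exact hs) hkey
  rw [zero_add] at hH
  haveI : Fintype H := Fintype.ofFinite H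
  have hle : Fintype.card (Fin t) ≤ Fintype.card H := by
    rw [Fintype.card_fin, ← Nat.card_eq_fintype_card, hH]
    exact ht
  obtain ⟨f⟩ := Function.Embedding.nonempty_of_card_le hle
  have hinv : ∀ g : E, g⁻¹ = g := fun g => inv_eq_of_mul_eq_one_right (hE g)
  have hfx : ∀ i j : Fin t, (f i : E) • x = (f j : E) • x → i = j := by
    intro i j h
    have h1 : ((f j : E)⁻¹ * (f i : E)) • x = x := by
      rw [mul_smul, h, inv_smul_smul]
    have h2 : (f j : E)⁻¹ * (f i : E) ∈ H := H.mul_mem (H.inv_mem (f j).2) (f i).2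
    have h3 := hHB _ h2 (mem_union_left _ (by rw [hBx, mem_filter]; exact ⟨mem_univ _, h1⟩))
    rw [inv_mul_eq_one] at h3
    exact (f.injective (Subtype.ext h3)).symm
  have hfy : ∀ i j : Fin t, (s * (f i : E)) • y = (s * (f j : E)) • y → i = j := by
    intro i j h
    rw [mul_smul, mul_smul] at h
    have h0 := smul_left_cancel s h
    have h1 : ((f j : E)⁻¹ * (f i : E)) • y = y := by
      rw [mul_smul, h0, inv_smul_smul]
    have h2 : (f j : E)⁻¹ * (f i : E) ∈ H := H.mul_mem (H.inv_mem (f j).2) (f i).2
    have h3 := hHB _ h2 (mem_union_right _ (by rw [hBy, mem_filter]; exact ⟨mem_univ _, h1⟩))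
    rw [inv_mul_eq_one] at h3
    exact (f.injective (Subtype.ext h3)).symm
  have hA : ∀ i j : Fin t, G.Adj ((f i : E) • x) ((s * (f j : E)) • y) := by
    intro i j
    have h1 := hs _ (H.mul_mem (f i).2 (f j).2)
    rw [hS, mem_filter] at h1
    have h2 := haut (f i : E) _ _ h1.2
    rw [← mul_smul] at h2
    have e : (f i : E) * (s * ((f i : E) * (f j : E))) = s * (f j : E) := by
      calc (f i : E) * (s * ((f i : E) * (f j : E))) =
          ((f i : E) * (f i : E)) * (s * (f j : E)) := by
            rw [mul_left_comm s, ← mul_assoc]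
        _ = s * (f j : E) := by rw [hE, one_mul]
    rw [e] at h2
    exact h2
  apply hG
  refine ⟨⟨⟨Sum.elim (fun i => (f i : E) • x) (fun j => (s * (f j : E)) • y), ?_⟩, ?_⟩⟩
  · intro a b hab
    rcases a with i | i <;> rcases b with j | j
    · simp at hab
    · exact hA i j
    · exact (hA j i).symm
    · simp at hab
  · intro a b hab
    rcases a with i | i <;> rcases b with j | j
    · exact congrArg Sum.inl (hfx i j hab)
    · exfalso
      have := hA i j
      change (f i : E) • x = (s * (f j : E)) • y at hab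
      rw [hab] at this
      exact G.loopless.irrefl _ this
    · exfalso
      have := hA j i
      change (s * (f i : E)) • y = (f j : E) • x at hab
      rw [hab] at this
      exact G.loopless.irrefl _ this
    · exact congrArg Sum.inr (hfy i j hab)

section count

variable [Fintype V]

open Classical in
theorem sum_pair (x : V) :
    ∑ y : V, (univ.filter fun g : E => G.Adj x (g • y)).card =
      Fintype.card E * G.degree x := by
  simp only [card_filter]
  rw [sum_comm]
  have h2 : ∀ g : E, (∑ y : V, if G.Adj x (g • y) then 1 else 0) = G.degree x := by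
    intro g
    rw [← card_filter, ← G.card_neighborFinset_eq_degree]
    refine card_bij (fun y _ => g • y) ?_ ?_ ?_
    · intro y hy
      rw [mem_filter] at hy
      exact (G.mem_neighborFinset x _).2 hy.2
    · intro y _ z _ h
      exact smul_left_cancel g h
    · intro z hz
      refine ⟨g⁻¹ • z, ?_, smul_inv_smul _ _⟩
      rw [mem_filter, smul_inv_smul]
      exact ⟨mem_univ _, (G.mem_neighborFinset x _).1 hz⟩
  rw [sum_congr rfl fun g _ => h2 g]
  simp

open Classical in
theorem sum_stab : ∑ x : V, (univ.filter fun g : E => g • x = x).card =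
    Nat.card (MulAction.orbitRel.Quotient E V) * Fintype.card E := by
  have h := MulAction.sum_card_fixedBy_eq_card_orbits_mul_card_group E V
  rw [Nat.card_eq_fintype_card]
  simp only [MulAction.orbitRel.Quotient]
  rw [← h]
  simp only [card_filter]
  rw [sum_comm]
  refine sum_congr rfl fun g _ => ?_
  rw [← card_filter, ← Fintype.card_subtype]
  exact Fintype.card_congr (Equiv.refl _)

open Classical in
/-- The degree of a vertex. -/
theorem degree_bound (k t : ℕ) (ht : t ≤ 2 ^ (k + 1))
    (hG : (completeBipartiteGraph (Fin t) (Fin t)).Free G)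
    (hE : ∀ g : E, g * g = 1) (haut : ∀ (g : E) (x y : V), G.Adj x y → G.Adj (g • x) (g • y))
    (x : V) :
    Fintype.card E * G.degree x ^ (2 ^ k) ≤
      2 ^ k * (2 * Fintype.card V) ^ (2 ^ k - 1) *
        (Fintype.card V * ((univ.filter fun g : E => g • x = x).card - 1) +
          Nat.card (MulAction.orbitRel.Quotient E V) * Fintype.card E) := by
  set m := 2 ^ k with hm
  have hm1 : 1 ≤ m := Nat.one_le_two_pow
  set N := Fintype.card E with hN
  set n := Fintype.card V with hn
  set b := (univ.filter fun g : E => g • x = x).card - 1 with hb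
  have hNpos : 0 < N := Fintype.card_pos
  have h1 : (N * G.degree x) ^ m ≤ n ^ (m - 1) * ∑ y : V,
      (univ.filter fun g : E => G.Adj x (g • y)).card ^ m := by
    rw [← sum_pair G x]
    exact pow_mean univ _ m hm1
  have h2 : ∑ y : V, (univ.filter fun g : E => G.Adj x (g • y)).card ^ m ≤
      m * (2 * N) ^ (m - 1) * (n * b + Nat.card (MulAction.orbitRel.Quotient E V) * N) := by
    calc ∑ y : V, (univ.filter fun g : E => G.Adj x (g • y)).card ^ m
        ≤ ∑ y : V, m * (b + (univ.filter fun g : E => g • y = y).card) * (2 * N) ^ (m - 1) :=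
          sum_le_sum fun y _ => local_bound G k t ht hG hE haut x y
      _ = m * (2 * N) ^ (m - 1) *
          ∑ y : V, (b + (univ.filter fun g : E => g • y = y).card) := by
          rw [mul_sum]
          refine sum_congr rfl fun y _ => ?_
          ring
      _ = _ := by
          rw [sum_add_distrib, sum_stab, sum_const, card_univ, smul_eq_mul]
  have h3 : N ^ (m - 1) * (N * G.degree x ^ m) ≤ N ^ (m - 1) *
      (m * (2 * n) ^ (m - 1) *
        (n * b + Nat.card (MulAction.orbitRel.Quotient E V) * N)) := by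
    have hk : m = (m - 1) + 1 := by omega
    calc N ^ (m - 1) * (N * G.degree x ^ m) = (N * G.degree x) ^ m := by
          rw [mul_pow]
          conv_rhs => rw [hk, pow_succ N]
          rw [← hk]
          ring
      _ ≤ _ := h1
      _ ≤ n ^ (m - 1) * (m * (2 * N) ^ (m - 1) *
          (n * b + Nat.card (MulAction.orbitRel.Quotient E V) * N)) :=
          Nat.mul_le_mul_left _ h2
      _ = _ := by
          rw [mul_pow 2 N, mul_pow 2 n]
          ring
  exact Nat.le_of_mul_le_mul_left h3 (by positivity)

open Classical in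
/-- The number of edges. -/
theorem edge_bound (k t : ℕ) (ht : t ≤ 2 ^ (k + 1))
    (hG : (completeBipartiteGraph (Fin t) (Fin t)).Free G)
    (hE : ∀ g : E, g * g = 1) (haut : ∀ (g : E) (x y : V), G.Adj x y → G.Adj (g • x) (g • y)) :
    G.edgeFinset.card ^ (2 ^ k) ≤ 2 ^ k * Nat.card (MulAction.orbitRel.Quotient E V) *
      Fintype.card V ^ (2 * 2 ^ k - 1) := by
  set m := 2 ^ k with hm
  have hm1 : 1 ≤ m := Nat.one_le_two_pow
  set N := Fintype.card E with hN
  set n := Fintype.card V with hn
  set r := Nat.card (MulAction.orbitRel.Quotient E V) with hr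
  have hNpos : 0 < N := Fintype.card_pos
  have h1 : (2 * G.edgeFinset.card) ^ m ≤ n ^ (m - 1) * ∑ x : V, G.degree x ^ m := by
    rw [← G.sum_degrees_eq_twice_card_edges]
    exact pow_mean univ _ m hm1
  have h2 : N * ∑ x : V, G.degree x ^ m ≤ m * (2 * n) ^ (m - 1) * (2 * (n * (r * N))) := by
    rw [mul_sum]
    calc ∑ x : V, N * G.degree x ^ m
        ≤ ∑ x : V, m * (2 * n) ^ (m - 1) *
          (n * ((univ.filter fun g : E => g • x = x).card - 1) + r * N) :=
          sum_le_sum fun x _ => degree_bound G k t ht hG hE haut x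
      _ ≤ ∑ x : V, m * (2 * n) ^ (m - 1) *
          (n * (univ.filter fun g : E => g • x = x).card + r * N) := by
          refine sum_le_sum fun x _ => ?_
          apply Nat.mul_le_mul_left
          apply Nat.add_le_add_right
          exact Nat.mul_le_mul_left _ (Nat.sub_le _ _)
      _ = m * (2 * n) ^ (m - 1) * (2 * (n * (r * N))) := by
          rw [← mul_sum, sum_add_distrib, ← mul_sum, sum_stab, sum_const, card_univ, smul_eq_mul]
          ring
  have h3 : (N * 2 ^ m) * G.edgeFinset.card ^ m ≤ (N * 2 ^ m) * (m * r * n ^ (2 * m - 1)) := by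
    have hk : 2 * m - 1 = (m - 1) + (m - 1) + 1 := by omega
    have hk2 : 2 ^ m = 2 ^ (m - 1) * 2 := by
      rw [← pow_succ]
      congr 1
      omega
    calc (N * 2 ^ m) * G.edgeFinset.card ^ m = N * (2 * G.edgeFinset.card) ^ m := by
          rw [mul_pow]; ring
      _ ≤ N * (n ^ (m - 1) * ∑ x : V, G.degree x ^ m) := Nat.mul_le_mul_left _ h1
      _ = n ^ (m - 1) * (N * ∑ x : V, G.degree x ^ m) := by ring
      _ ≤ n ^ (m - 1) * (m * (2 * n) ^ (m - 1) * (2 * (n * (r * N)))) :=
          Nat.mul_le_mul_left _ h2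
      _ = (N * 2 ^ m) * (m * r * n ^ (2 * m - 1)) := by
          rw [hk, hk2, mul_pow 2 n, pow_add, pow_add]
          ring
  exact Nat.le_of_mul_le_mul_left h3 (by positivity)

end count

end Pool.Agent.Lib.MP_a4c586_co.AnyAction
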