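import Pool.Agent.Lib.FTG.Cube

/-! The cube lemma with independence modulo a forbidden set (after helper34). -/

set_option autoImplicit false

namespace Pool.Agent.Lib.FTG

open Finset

variable {E : Type*} [CommGroup E] [Fintype E] [DecidableEq E]

/-- Pigeonhole: some `h ∉ B` has `|S ∩ h S| |E| ≥ |S| (|S| - |B|)`. -/
theorem exists_shift_set (B : Finset E) (S : Finset E)
    (hc : B.card < S.card) :
    ∃ h, h ∉ B ∧ S.card * (S.card - B.card) ≤
      (S.filter fun s => s * h ∈ S).card * Fintype.card E := by
  classical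
  by_contra hcon
  push Not at hcon
  set N := Fintype.card E
  set Q := S.card * (S.card - B.card) with hQ
  set T : Finset E := univ.filter fun h => h ∉ B with hT
  -- number of pairs
  have hsum : Q ≤ ∑ h ∈ T, (S.filter fun s => s * h ∈ S).card := by
    have e1 : ∑ h ∈ T, (S.filter fun s => s * h ∈ S).card =
        ∑ s ∈ S, (T.filter fun h => s * h ∈ S).card := by
      simp only [card_filter]
      rw [sum_comm]
    rw [e1]
    have e2 : ∀ s ∈ S, S.card - B.card ≤ (T.filter fun h => s * h ∈ S).card := by
      intro s hs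
      -- the map h ↦ s h is a bijection from T-filter to {s' ∈ S | s⁻¹ s' ∉ B}
      have e3 : (S.filter fun s' => s⁻¹ * s' ∉ B).card ≤ (T.filter fun h => s * h ∈ S).card := by
        apply card_le_card_of_injOn (fun s' => s⁻¹ * s')
        · intro x hx
          have hx' := (mem_filter.1 (mem_coe.1 hx))
          apply mem_coe.2
          rw [mem_filter]
          refine ⟨?_, ?_⟩
          · rw [hT, mem_filter]
            exact ⟨mem_univ _, hx'.2⟩
          · rw [mul_inv_cancel_left]
            exact hx'.1
        · intro x _ y _ hxy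
          exact mul_left_cancel hxy
      have e4 : (S.filter fun s' => s⁻¹ * s' ∈ B).card ≤ B.card := by
        apply card_le_card_of_injOn (fun s' => s⁻¹ * s')
        · intro x hx
          have hx' := (mem_filter.1 (mem_coe.1 hx))
          exact mem_coe.2 hx'.2
        · intro x _ y _ hxy
          exact mul_left_cancel hxy
      have e5 := card_filter_add_card_filter_not (s := S) (fun s' => s⁻¹ * s' ∈ B)
      omega
    calc Q = ∑ s ∈ S, (S.card - B.card) := by rw [sum_const, smul_eq_mul]
      _ ≤ _ := sum_le_sum e2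
  have hQpos : 0 < Q := by
    rw [hQ]
    exact Nat.mul_pos (by omega) (by omega)
  have hTne : T.Nonempty := by
    by_contra hne
    rw [not_nonempty_iff_eq_empty] at hne
    rw [hne, sum_empty] at hsum
    omega
  have hlt : ∑ h ∈ T, (S.filter fun s => s * h ∈ S).card * N < ∑ h ∈ T, Q := by
    apply sum_lt_sum_of_nonempty hTne
    intro h hh
    rw [hT, mem_filter] at hh
    exact hcon h hh.2
  rw [← sum_mul, sum_const, smul_eq_mul] at hlt
  have hTN : T.card ≤ N := card_le_univ T
  have h1 : Q * N ≤ (∑ h ∈ T, (S.filter fun s => s * h ∈ S).card) * N :=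
    Nat.mul_le_mul_right N hsum
  have h2 : T.card * Q ≤ N * Q := Nat.mul_le_mul_right Q hTN
  have h3 : Q * N = N * Q := mul_comm _ _
  omega

/-- A set of at most `|H| |B|` elements which contains all `g * b`, `g ∈ H`, `b ∈ B`. -/
theorem exists_prod (H : Subgroup E) (B : Finset E) :
    ∃ F : Finset E, F.card ≤ Nat.card H * B.card ∧ ∀ g ∈ H, ∀ b ∈ B, g * b ∈ F := by
  classical
  refine ⟨((univ.filter fun g : E => g ∈ H) ×ˢ B).image fun p => p.1 * p.2, ?_, ?_⟩
  · refine card_image_le.trans (le_of_eq ?_)
    rw [card_product, Nat.card_eq_fintype_card, Fintype.card_subtype]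
  · intro g hg b hb
    rw [mem_image]
    refine ⟨(g, b), ?_, rfl⟩
    rw [mem_product, mem_filter]
    exact ⟨⟨mem_univ _, hg⟩, hb⟩

/-- The cube lemma with independence modulo a forbidden set `B`. -/
theorem cube_avoid (hE : ∀ g : E, g * g = 1) (B : Finset E) (hB1 : (1 : E) ∈ B) :
    ∀ (j l : ℕ) (H : Subgroup E) (S : Finset E),
    Nat.card H = 2 ^ l → (∀ g ∈ H, g ∈ B → g = 1) → (∀ s ∈ S, ∀ h ∈ H, s * h ∈ S) →
    2 ^ (l + j) * B.card * (2 * Fintype.card E) ^ (2 ^ j - 1) < S.card ^ (2 ^ j) →
    ∃ H' : Subgroup E, Nat.card H' = 2 ^ (l + j + 1) ∧ (∀ g ∈ H', g ∈ B → g = 1) ∧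
      ∃ s, ∀ h ∈ H', s * h ∈ S := by
  -- the new subgroup meets B trivially
  have hnew : ∀ (H : Subgroup E) (h : E) (F : Finset E), (∀ g ∈ H, ∀ b ∈ B, g * b ∈ F) →
      h ∉ F → (∀ g ∈ H, g ∈ B → g = 1) → (∀ g ∈ ext H h (hE h), g ∈ B → g = 1) ∧ h ∉ H := by
    intro H h F hF hh hH
    constructor
    · rintro g (hg | hg) hgB
      · exact hH g hg hgB
      · exfalso
        apply hh
        have h1 := hF _ hg _ hgB
        have e : g * h * g = h := by
          rw [mul_comm g h, mul_assoc, hE, mul_one]
        rwa [e] at h1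
    · intro hhH
      apply hh
      have h1 := hF _ hhH _ hB1
      rwa [mul_one] at h1
  intro j
  induction j with
  | zero =>
    intro l H S hH hHB hS hc
    simp only [pow_zero, Nat.sub_self, mul_one, pow_one, add_zero] at hc
    obtain ⟨F, hFc, hF⟩ := exists_prod H B
    rw [hH] at hFc
    obtain ⟨h, hhF, hle⟩ := exists_shift_set F S (by omega)
    obtain ⟨hnB, hhn⟩ := hnew H h F hF hhF hHB
    have hpos : 0 < (S.filter fun s => s * h ∈ S).card := by
      by_contra h0
      have h0' : (S.filter fun s => s * h ∈ S).card = 0 := by omega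
      rw [h0', zero_mul] at hle
      have : 0 < S.card * (S.card - F.card) := Nat.mul_pos (by omega) (by omega)
      omega
    obtain ⟨s, hs⟩ := card_pos.1 hpos
    rw [mem_filter] at hs
    refine ⟨ext H h (hE h), ?_, hnB, s, ?_⟩
    · rw [card_ext (hE h) hhn, hH]
      ring
    · rintro g (hg | hg)
      · exact hS s hs.1 g hg
      · have := hS (s * h) hs.2 (g * h) hg
        have e : s * h * (g * h) = s * g := by
          calc s * h * (g * h) = s * g * (h * h) := by
                rw [mul_assoc, mul_assoc, mul_left_comm h g h]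
            _ = s * g := by rw [hE, mul_one]
        rwa [e] at this
  | succ j ih =>
    intro l H S hH hHB hS hc
    set N := Fintype.card E with hN
    have hSN : S.card ≤ N := card_le_univ S
    have hNpos : 0 < N := Fintype.card_pos
    have hBpos : 0 < B.card := card_pos.2 ⟨1, hB1⟩
    have hbig : 2 ^ (l + (j + 1)) * B.card < S.card := by
      have hk : 2 ^ (j + 1) = (2 ^ (j + 1) - 1) + 1 := by
        have : 0 < 2 ^ (j + 1) := by positivity
        omega
      have h1 : S.card ^ (2 ^ (j + 1)) ≤ (2 * N) ^ (2 ^ (j + 1) - 1) * S.card := by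
        conv_lhs => rw [hk, pow_succ]
        exact Nat.mul_le_mul_right _ (Nat.pow_le_pow_left (by omega) _)
      have h2 : (2 * N) ^ (2 ^ (j + 1) - 1) * (2 ^ (l + (j + 1)) * B.card) <
          (2 * N) ^ (2 ^ (j + 1) - 1) * S.card := by
        calc (2 * N) ^ (2 ^ (j + 1) - 1) * (2 ^ (l + (j + 1)) * B.card) =
            2 ^ (l + (j + 1)) * B.card * (2 * N) ^ (2 ^ (j + 1) - 1) := mul_comm _ _
          _ < _ := hc
          _ ≤ _ := h1
      exact Nat.lt_of_mul_lt_mul_left h2
    have hbig1 : 2 ^ (l + 1) * B.card < S.card := by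
      refine lt_of_le_of_lt ?_ hbig
      exact Nat.mul_le_mul_right _ (Nat.pow_le_pow_right (by norm_num) (by omega))
    have hl : 2 ^ (l + 1) * B.card = 2 * (2 ^ l * B.card) := by ring
    obtain ⟨F, hFc, hF⟩ := exists_prod H B
    rw [hH] at hFc
    obtain ⟨h, hhF, hle⟩ := exists_shift_set F S (by omega)
    obtain ⟨hnB, hhn⟩ := hnew H h F hF hhF hHB
    set S' := S.filter fun s => s * h ∈ S with hS'
    have hsq : S.card ^ 2 ≤ S'.card * (2 * N) := by
      have h1 : S.card ≤ 2 * (S.card - F.card) := by omega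
      calc S.card ^ 2 = S.card * S.card := sq _
        _ ≤ S.card * (2 * (S.card - F.card)) := Nat.mul_le_mul_left _ h1
        _ = 2 * (S.card * (S.card - F.card)) := by ring
        _ ≤ 2 * (S'.card * N) := Nat.mul_le_mul_left _ hle
        _ = S'.card * (2 * N) := by ring
    obtain ⟨H', hH', hH'B, s, hs⟩ := ih (l + 1) (ext H h (hE h)) S' (by
      rw [card_ext (hE h) hhn, hH]
      ring) hnB (by
      intro s hs g hg
      rw [hS', mem_filter] at hs ⊢
      rcases hg with hg | hg
      · refine ⟨hS s hs.1 g hg, ?_⟩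
        have := hS (s * h) hs.2 g hg
        have e : s * g * h = s * h * g := by rw [mul_assoc, mul_comm g h, ← mul_assoc]
        rw [e]
        exact this
      · have h1 := hS s hs.1 (g * h) hg
        have h2 := hS (s * h) hs.2 (g * h) hg
        have e : s * h * (g * h) = s * g := by
          calc s * h * (g * h) = s * g * (h * h) := by
                rw [mul_assoc, mul_assoc, mul_left_comm h g h]
            _ = s * g := by rw [hE, mul_one]
        rw [e] at h2
        refine ⟨h2, ?_⟩
        rw [mul_assoc]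
        exact h1) (by
      -- numerical condition
      have hpos : 0 < (2 * N) ^ (2 ^ j) := by positivity
      have h1 : S.card ^ (2 ^ (j + 1)) ≤ S'.card ^ (2 ^ j) * (2 * N) ^ (2 ^ j) := by
        calc S.card ^ (2 ^ (j + 1)) = (S.card ^ 2) ^ (2 ^ j) := by
              rw [← pow_mul]
              congr 1
              ring
          _ ≤ (S'.card * (2 * N)) ^ (2 ^ j) := Nat.pow_le_pow_left hsq _
          _ = _ := mul_pow _ _ _
      have h2 : 2 ^ (l + (j + 1)) * B.card * (2 * N) ^ (2 ^ (j + 1) - 1) =
          2 ^ (l + 1 + j) * B.card * (2 * N) ^ (2 ^ j - 1) * (2 * N) ^ (2 ^ j) := by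
        rw [mul_assoc (2 ^ (l + 1 + j) * B.card), ← pow_add]
        congr 2
        · congr 1
          ring
        · have : 0 < 2 ^ j := by positivity
          have e : 2 ^ (j + 1) = 2 * 2 ^ j := by ring
          omega
      have h3 : 2 ^ (l + 1 + j) * B.card * (2 * N) ^ (2 ^ j - 1) * (2 * N) ^ (2 ^ j) <
          S'.card ^ (2 ^ j) * (2 * N) ^ (2 ^ j) := by
        rw [← h2]
        exact lt_of_lt_of_le hc h1
      exact Nat.lt_of_mul_lt_mul_right h3)
    refine ⟨H', ?_, hH'B, s, ?_⟩
    · rw [hH']
      congr 1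
      ring
    · intro g hg
      have := hs g hg
      rw [hS', mem_filter] at this
      exact this.1

end Pool.Agent.Lib.FTG
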