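import Mathlib

/-!
# Affine flats in large subsets of elementary abelian 2-groups

A subset S of an elementary abelian 2-group A of order N with (3 N)^m < N |S|^m, m = 2^k,
contains a coset z + W of a subgroup W of order 2 m.
-/

set_option autoImplicit false

namespace Pool.Agent.Lib.MP_a4c586_co

open Finset

universe u

/-- The elements s of S with s + h in S. -/
def shiftInter {A : Type u} [AddCommGroup A] [DecidableEq A] (S : Finset A) (h : A) : Finset A :=
  S.filter (fun s => s + h ∈ S)

theorem sum_shiftInter {A : Type u} [AddCommGroup A] [Fintype A] [DecidableEq A]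
    (S : Finset A) : ∑ h : A, (shiftInter S h).card = S.card * S.card := by
  have h1 : ∀ h : A, (shiftInter S h).card = ∑ s ∈ S, if s + h ∈ S then 1 else 0 := by
    intro h
    rw [shiftInter, Finset.card_filter]
  simp_rw [h1]
  rw [Finset.sum_comm]
  have h2 : ∀ s ∈ S, (∑ h : A, if s + h ∈ S then 1 else 0) = S.card := by
    intro s _
    rw [← Finset.card_filter]
    refine Finset.card_bij' (fun h _ => s + h) (fun x _ => x - s) ?_ ?_ ?_ ?_
    · intro h hh
      simpa using hh
    · intro x hx
      simpa using hx
    · intro h _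
      simp
    · intro x _
      simp
  rw [Finset.sum_congr rfl h2]
  simp

theorem add_self {A : Type u} [AddCommGroup A] [Module (ZMod 2) A] (x : A) : x + x = 0 := by
  have h : ((1 : ZMod 2) + 1) • x = x + x := by rw [add_smul, one_smul]
  rw [← h]
  have : ((1 : ZMod 2) + 1) = 0 := by decide
  rw [this, zero_smul]

/-- A set invariant under adding h has twice as many elements as its part in a hyperplane
not containing h. -/
theorem card_half {A : Type u} [AddCommGroup A] [Fintype A] [DecidableEq A] [Module (ZMod 2) A]
    (φ : A →ₗ[ZMod 2] ZMod 2) [DecidablePred (fun x : A => x ∈ LinearMap.ker φ)]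
    (h : A) (hφ : φ h = 1) (T : Finset A)
    (hT : ∀ x ∈ T, x + h ∈ T) :
    T.card = 2 * (T.filter (fun x => x ∈ LinearMap.ker φ)).card := by
  have h1 := Finset.card_filter_add_card_filter_not (s := T) (fun x => x ∈ LinearMap.ker φ)
  have h2 : (T.filter (fun x => ¬ x ∈ LinearMap.ker φ)).card =
      (T.filter (fun x => x ∈ LinearMap.ker φ)).card := by
    have hcase : ∀ a : ZMod 2, a ≠ 0 → a + 1 = 0 := by decide
    have hcase' : (0 : ZMod 2) + 1 ≠ 0 := by decide
    refine Finset.card_bij' (fun x _ => x + h) (fun x _ => x + h) ?_ ?_ ?_ ?_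
    · intro x hx
      simp only [Finset.mem_filter, LinearMap.mem_ker] at hx ⊢
      refine ⟨hT x hx.1, ?_⟩
      rw [map_add, hφ]
      exact hcase _ hx.2
    · intro x hx
      simp only [Finset.mem_filter, LinearMap.mem_ker] at hx ⊢
      refine ⟨hT x hx.1, ?_⟩
      rw [map_add, hφ, hx.2]
      exact hcase'
    · intro x _
      rw [add_assoc, add_self, add_zero]
    · intro x _
      rw [add_assoc, add_self, add_zero]
  omega

/-- Arithmetic of the induction step. -/
theorem arith (m N s M : ℕ) (hm : 1 ≤ m) (hN : 1 ≤ N) (h1 : s * s ≤ s + N * M)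
    (h2 : N * M ^ m ≤ 2 * (3 * N) ^ m) : N * s ^ (2 * m) ≤ (3 * N) ^ (2 * m) := by
  rcases Nat.lt_or_ge s 4 with hs | hs
  · have hs3 : s ≤ 3 := by omega
    calc N * s ^ (2 * m) ≤ N * 3 ^ (2 * m) := Nat.mul_le_mul_left _ (Nat.pow_le_pow_left hs3 _)
      _ ≤ N ^ (2 * m) * 3 ^ (2 * m) := by
          apply Nat.mul_le_mul_right
          calc N = N ^ 1 := (pow_one N).symm
            _ ≤ N ^ (2 * m) := Nat.pow_le_pow_right hN (by omega)
      _ = (3 * N) ^ (2 * m) := by rw [mul_pow, mul_comm]
  · have h3 : 3 * (s * s) ≤ 4 * (N * M) := by nlinarith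
    have h4 : (3 * (s * s)) ^ m ≤ (4 * (N * M)) ^ m := Nat.pow_le_pow_left h3 m
    have h5 : 3 ^ m * (N * s ^ (2 * m)) ≤ 3 ^ m * (2 * 4 ^ m * N ^ (2 * m)) := by
      calc 3 ^ m * (N * s ^ (2 * m)) = N * (3 * (s * s)) ^ m := by
            rw [mul_pow, pow_mul, pow_two]; ring
        _ ≤ N * (4 * (N * M)) ^ m := Nat.mul_le_mul_left _ h4
        _ = 4 ^ m * N ^ m * (N * M ^ m) := by rw [mul_pow, mul_pow]; ring
        _ ≤ 4 ^ m * N ^ m * (2 * (3 * N) ^ m) := Nat.mul_le_mul_left _ h2
        _ = 3 ^ m * (2 * 4 ^ m * N ^ (2 * m)) := by rw [mul_pow, two_mul m, pow_add]; ring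
    have h6 : N * s ^ (2 * m) ≤ 2 * 4 ^ m * N ^ (2 * m) :=
      Nat.le_of_mul_le_mul_left h5 (by positivity)
    have h7 : 2 * 4 ^ m ≤ 3 ^ (2 * m) := by
      have : ∀ j : ℕ, 2 * 4 ^ (j + 1) ≤ 9 ^ (j + 1) := by
        intro j
        induction j with
        | zero => norm_num
        | succ j ih => rw [pow_succ 4 (j + 1), pow_succ 9 (j + 1)]; omega
      obtain ⟨j, rfl⟩ : ∃ j, m = j + 1 := ⟨m - 1, by omega⟩
      rw [pow_mul]
      exact this j
    calc N * s ^ (2 * m) ≤ 2 * 4 ^ m * N ^ (2 * m) := h6
      _ ≤ 3 ^ (2 * m) * N ^ (2 * m) := Nat.mul_le_mul_right _ h7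
      _ = (3 * N) ^ (2 * m) := by rw [mul_pow]

/-- The flat lemma. -/
theorem flat (k : ℕ) : ∀ (A : Type u) [AddCommGroup A] [Fintype A] [DecidableEq A]
    [Module (ZMod 2) A] (S : Finset A),
    (3 * Fintype.card A) ^ (2 ^ k) < Fintype.card A * S.card ^ (2 ^ k) →
    ∃ (z : A) (W : Finset A), W.card = 2 ^ (k + 1) ∧ 0 ∈ W ∧
      (∀ x ∈ W, ∀ y ∈ W, x + y ∈ W) ∧ ∀ w ∈ W, z + w ∈ S := by
  induction k with
  | zero =>
    intro A _ _ _ _ S hS
    simp only [pow_zero, pow_one] at hS
    have hpos : 0 < Fintype.card A := Fintype.card_pos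
    have hS1 : 1 < S.card := by
      by_contra hcon
      have : S.card ≤ 1 := by omega
      nlinarith
    obtain ⟨a, ha, b, hb, hab⟩ := Finset.one_lt_card.mp hS1
    have hne : (0 : A) ≠ a + b := by
      intro h0
      apply hab
      have : a + b + b = b := by rw [← h0, zero_add]
      rw [add_assoc, add_self, add_zero] at this
      exact this
    refine ⟨a, {0, a + b}, ?_, by simp, ?_, ?_⟩
    · rw [Finset.card_pair hne]; norm_num
    · intro x hx y hy
      simp only [Finset.mem_insert, Finset.mem_singleton] at hx hy ⊢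
      rcases hx with rfl | rfl <;> rcases hy with rfl | rfl
      · left; simp
      · right; simp
      · right; simp
      · left; exact add_self _
    · intro w hw
      simp only [Finset.mem_insert, Finset.mem_singleton] at hw
      rcases hw with rfl | rfl
      · simpa using ha
      · rw [← add_assoc, add_self, zero_add]; exact hb
  | succ k ih =>
    intro A _ _ _ _ S hS
    classical
    have hpos : 1 ≤ Fintype.card A := Fintype.card_pos
    -- some h with a large intersection
    have hex : ∃ h : A, h ≠ 0 ∧
        2 * (3 * Fintype.card A) ^ (2 ^ k) < Fintype.card A * (shiftInter S h).card ^ (2 ^ k) := by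
      by_contra hcon
      push Not at hcon
      -- bound for the maximum
      have hM : ∃ M : ℕ, (∀ h : A, h ≠ 0 → (shiftInter S h).card ≤ M) ∧
          Fintype.card A * M ^ (2 ^ k) ≤ 2 * (3 * Fintype.card A) ^ (2 ^ k) := by
        rcases (Finset.univ.filter (fun h : A => h ≠ 0)).eq_empty_or_nonempty with he | hne
        · refine ⟨0, ?_, ?_⟩
          · intro h hh
            exfalso
            have : h ∈ Finset.univ.filter (fun h : A => h ≠ 0) := by simp [hh]
            rw [he] at this
            simp at this
          · rw [zero_pow (by positivity)]; simp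
        · obtain ⟨h0, hh0, hmax⟩ := Finset.exists_max_image _
            (fun h => (shiftInter S h).card) hne
          refine ⟨(shiftInter S h0).card, ?_, ?_⟩
          · intro h hh
            exact hmax h (by simp [hh])
          · exact hcon h0 (by simpa using hh0)
      obtain ⟨M, hM1, hM2⟩ := hM
      have hsum := sum_shiftInter S
      have hle : S.card * S.card ≤ S.card + Fintype.card A * M := by
        rw [← hsum, ← Finset.add_sum_erase _ _ (Finset.mem_univ (0 : A))]
        apply add_le_add
        · exact Finset.card_le_card (Finset.filter_subset _ _)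
        · calc ∑ h ∈ Finset.univ.erase (0 : A), (shiftInter S h).card
              ≤ ∑ h ∈ Finset.univ.erase (0 : A), M := by
                apply Finset.sum_le_sum
                intro h hh
                exact hM1 h (Finset.ne_of_mem_erase hh)
            _ = (Finset.univ.erase (0 : A)).card * M := by rw [Finset.sum_const, smul_eq_mul]
            _ ≤ Fintype.card A * M := by
                apply Nat.mul_le_mul_right
                exact Finset.card_le_univ _
      have hfin := arith (2 ^ k) (Fintype.card A) S.card M (Nat.one_le_two_pow) hpos hle hM2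
      rw [pow_succ, mul_comm (2 ^ k) 2] at hS
      omega
    obtain ⟨h, hh0, hh⟩ := hex
    obtain ⟨φ, hφ⟩ := Module.Projective.exists_dual_eq_one (ZMod 2) hh0
    -- the hyperplane
    have hcA : Fintype.card A = 2 * Fintype.card (LinearMap.ker φ) := by
      have := card_half φ h hφ (Finset.univ : Finset A) (by simp)
      rw [Finset.card_univ] at this
      rw [this, Fintype.card_subtype]
    have hinv : ∀ x ∈ shiftInter S h, x + h ∈ shiftInter S h := by
      intro x hx
      simp only [shiftInter, Finset.mem_filter] at hx ⊢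
      refine ⟨hx.2, ?_⟩
      rw [add_assoc, add_self, add_zero]
      exact hx.1
    have hcS : (shiftInter S h).card =
        2 * ((shiftInter S h).subtype (fun x => x ∈ LinearMap.ker φ)).card := by
      rw [Finset.card_subtype]
      exact card_half φ h hφ _ hinv
    have hnew : (3 * Fintype.card (LinearMap.ker φ)) ^ (2 ^ k) <
        Fintype.card (LinearMap.ker φ) *
          ((shiftInter S h).subtype (fun x => x ∈ LinearMap.ker φ)).card ^ (2 ^ k) := by
      rw [hcA, hcS] at hh
      have e1 : 2 * (3 * (2 * Fintype.card (LinearMap.ker φ))) ^ (2 ^ k) =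
          (2 * 2 ^ (2 ^ k)) * (3 * Fintype.card (LinearMap.ker φ)) ^ (2 ^ k) := by
        rw [show 3 * (2 * Fintype.card (LinearMap.ker φ)) =
          2 * (3 * Fintype.card (LinearMap.ker φ)) by ring, mul_pow 2]
        ring
      have e2 : 2 * Fintype.card (LinearMap.ker φ) *
          (2 * ((shiftInter S h).subtype (fun x => x ∈ LinearMap.ker φ)).card) ^ (2 ^ k) =
          (2 * 2 ^ (2 ^ k)) * (Fintype.card (LinearMap.ker φ) *
            ((shiftInter S h).subtype (fun x => x ∈ LinearMap.ker φ)).card ^ (2 ^ k)) := by
        rw [mul_pow 2]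
        ring
      rw [e1, e2] at hh
      exact Nat.lt_of_mul_lt_mul_left hh
    obtain ⟨z, W, hWc, hW0, hWadd, hWS⟩ := ih (LinearMap.ker φ)
      ((shiftInter S h).subtype (fun x => x ∈ LinearMap.ker φ)) hnew
    have hmem : ∀ w ∈ W, ((z : A) + (w : A)) ∈ S ∧ ((z : A) + (w : A)) + h ∈ S := by
      intro w hw
      have := hWS w hw
      rw [Finset.mem_subtype] at this
      simp only [shiftInter, Finset.mem_filter] at this
      simpa using this
    refine ⟨(z : A), W.image (fun w : LinearMap.ker φ => (w : A)) ∪
      W.image (fun w : LinearMap.ker φ => (w : A) + h), ?_, ?_, ?_, ?_⟩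
    · rw [Finset.card_union_of_disjoint]
      · rw [Finset.card_image_of_injective _ Subtype.val_injective,
          Finset.card_image_of_injective _
            (fun a b hab => Subtype.val_injective (add_right_cancel hab)), hWc]
        ring
      · rw [Finset.disjoint_left]
        intro x hx hx'
        simp only [Finset.mem_image] at hx hx'
        obtain ⟨a, _, rfl⟩ := hx
        obtain ⟨b, _, hb⟩ := hx'
        have ha0 : φ (a : A) = 0 := a.2
        have hb0 : φ (b : A) = 0 := b.2
        have := congrArg φ hb
        rw [map_add, hφ, ha0, hb0] at this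
        exact absurd this (by decide)
    · rw [Finset.mem_union]
      left
      rw [Finset.mem_image]
      exact ⟨0, hW0, by simp⟩
    · intro x hx y hy
      rw [Finset.mem_union] at hx hy ⊢
      simp only [Finset.mem_image] at hx hy ⊢
      rcases hx with ⟨a, ha, rfl⟩ | ⟨a, ha, rfl⟩ <;> rcases hy with ⟨b, hb, rfl⟩ | ⟨b, hb, rfl⟩
      · left
        exact ⟨a + b, hWadd a ha b hb, by simp⟩
      · right
        exact ⟨a + b, hWadd a ha b hb, by push_cast; abel⟩
      · right
        exact ⟨a + b, hWadd a ha b hb, by push_cast; abel⟩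
      · left
        refine ⟨a + b, hWadd a ha b hb, ?_⟩
        have : (a : A) + h + ((b : A) + h) = (a : A) + (b : A) + (h + h) := by abel
        rw [this, add_self, add_zero]
        simp
    · intro w hw
      rw [Finset.mem_union] at hw
      simp only [Finset.mem_image] at hw
      rcases hw with ⟨a, ha, rfl⟩ | ⟨a, ha, rfl⟩
      · exact (hmem a ha).1
      · rw [← add_assoc]
        exact (hmem a ha).2

end Pool.Agent.Lib.MP_a4c586_co
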