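import Mathlib

/-!
# The Cayley graph of F x F (F a finite field of characteristic two) with the connection set
of all (a, a^3), a nonzero: no three vertices have three common neighbours.
-/

set_option autoImplicit false

namespace Pool.Agent.Lib.MP_a4c586_co

open Finset

/-- The vertices are the pairs of elements of F; x and y are adjacent when they are different
and x + y = (a, a^3) for some a. -/
def cubeGraph (F : Type*) [Field F] : SimpleGraph (F × F) where
  Adj x y := x ≠ y ∧ ∃ a : F, x + y = (a, a ^ 3)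
  symm := ⟨fun x y h => ⟨h.1.symm, by rw [add_comm]; exact h.2⟩⟩
  loopless := ⟨fun _ h => h.1 rfl⟩

variable {F : Type*} [Field F] [CharP F 2]

theorem add_self' (a : F) : a + a = 0 := CharTwo.add_self_eq_zero a

theorem cubeGraph_translate (e u v : F × F) :
    (cubeGraph F).Adj (e + u) (e + v) ↔ (cubeGraph F).Adj u v := by
  have h : e + u + (e + v) = u + v := by
    ext
    · simp only [Prod.fst_add]
      have : e.1 + u.1 + (e.1 + v.1) = u.1 + v.1 + (e.1 + e.1) := by ring
      rw [this, add_self', add_zero]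
    · simp only [Prod.snd_add]
      have : e.2 + u.2 + (e.2 + v.2) = u.2 + v.2 + (e.2 + e.2) := by ring
      rw [this, add_self', add_zero]
  simp only [cubeGraph, h, ne_eq, add_right_inj]

theorem eq_of_add_eq_zero' {x y : F × F} (h : x + y = 0) : x = y := by
  have h1 : x.1 + y.1 = 0 := congrArg Prod.fst h
  have h2 : x.2 + y.2 = 0 := congrArg Prod.snd h
  have h3 : x.1 = y.1 := by
    have := CharTwo.add_eq_zero.mp h1
    exact this
  have h4 : x.2 = y.2 := by
    have := CharTwo.add_eq_zero.mp h2
    exact this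
  exact Prod.ext h3 h4

theorem cubeGraph_neighbor (v : F × F) :
    (cubeGraph F).neighborSet v = (fun a : F => v + (a, a ^ 3)) '' {a : F | a ≠ 0} := by
  have hvv : v + v = 0 := by
    ext
    · simpa using add_self' v.1
    · simpa using add_self' v.2
  ext y
  simp only [SimpleGraph.mem_neighborSet, cubeGraph, Set.mem_image, Set.mem_ofPred_eq]
  constructor
  · rintro ⟨hne, a, ha⟩
    refine ⟨a, ?_, ?_⟩
    · rintro rfl
      apply hne
      apply eq_of_add_eq_zero'
      rw [ha]
      ext <;> simp
    · rw [← ha, ← add_assoc, hvv, zero_add]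
  · rintro ⟨a, ha, rfl⟩
    refine ⟨?_, a, by rw [← add_assoc, hvv, zero_add]⟩
    intro h
    apply ha
    have : ((a, a ^ 3) : F × F) = 0 := by
      have h' : v + 0 = v + (a, a ^ 3) := by rw [add_zero]; exact h
      exact (add_left_cancel h').symm
    exact congrArg Prod.fst this

theorem cubeGraph_degree [Fintype F] (v : F × F) :
    ((cubeGraph F).neighborSet v).ncard = Fintype.card F - 1 := by
  classical
  rw [cubeGraph_neighbor, Set.ncard_image_of_injective]
  · have : {a : F | a ≠ 0} = ((Finset.univ.erase (0 : F) : Finset F) : Set F) := by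
      ext a; simp
    rw [this, Set.ncard_coe_finset, Finset.card_erase_of_mem (Finset.mem_univ _),
      Finset.card_univ]
  · intro a b hab
    have h := add_left_cancel hab
    exact congrArg Prod.fst h

/-- Two different vertices have at most two common neighbours. -/
theorem cubeGraph_common {x x' : F × F} (hx : x ≠ x') {y1 y2 y3 : F × F}
    (h12 : y1 ≠ y2) (h13 : y1 ≠ y3) (h23 : y2 ≠ y3)
    (a1 : (cubeGraph F).Adj x y1) (a2 : (cubeGraph F).Adj x y2) (a3 : (cubeGraph F).Adj x y3)
    (b1 : (cubeGraph F).Adj x' y1) (b2 : (cubeGraph F).Adj x' y2)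
    (b3 : (cubeGraph F).Adj x' y3) : False := by
  -- each common neighbour gives a root of one quadratic
  have key : ∀ y : F × F, (cubeGraph F).Adj x y → (cubeGraph F).Adj x' y →
      ∃ a : F, y = x + (a, a ^ 3) ∧
        (x.1 + x'.1) * (a ^ 2 + (x.1 + x'.1) * a + (x.1 + x'.1) ^ 2) = x.2 + x'.2 := by
    intro y hy hy'
    obtain ⟨-, a, ha⟩ := hy
    obtain ⟨-, b, hb⟩ := hy'
    have e1 : x.1 + y.1 = a := congrArg Prod.fst ha
    have e2 : x.2 + y.2 = a ^ 3 := congrArg Prod.snd ha
    have e3 : x'.1 + y.1 = b := congrArg Prod.fst hb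
    have e4 : x'.2 + y.2 = b ^ 3 := congrArg Prod.snd hb
    have hxx : x + x = 0 := by
      ext
      · simpa using add_self' x.1
      · simpa using add_self' x.2
    refine ⟨a, ?_, ?_⟩
    · rw [← ha, ← add_assoc, hxx, zero_add]
    · have hy1 := add_self' y.1
      have hy2 := add_self' y.2
      have two : (2 : F) = 0 := CharTwo.two_eq_zero
      have s1 : x.1 + x'.1 = a + b := by
        rw [← e1, ← e3]
        linear_combination (-1 : F) * hy1
      have s2 : x.2 + x'.2 = a ^ 3 + b ^ 3 := by
        rw [← e2, ← e4]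
        linear_combination (-1 : F) * hy2
      rw [s1, s2]
      linear_combination (a ^ 3 + 3 * a ^ 2 * b + 2 * a * b ^ 2) * two
  obtain ⟨r1, hy1, hr1⟩ := key y1 a1 b1
  obtain ⟨r2, hy2, hr2⟩ := key y2 a2 b2
  obtain ⟨r3, hy3, hr3⟩ := key y3 a3 b3
  set c : F := x.1 + x'.1 with hc
  have hc0 : c ≠ 0 := by
    intro h0
    apply hx
    apply eq_of_add_eq_zero'
    rw [h0, zero_mul] at hr1
    ext
    · simpa using h0
    · simpa using hr1.symm
  have hd12 : r1 ≠ r2 := by
    rintro rfl
    exact h12 (hy1.trans hy2.symm)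
  have hd13 : r1 ≠ r3 := by
    rintro rfl
    exact h13 (hy1.trans hy3.symm)
  have root : ∀ p q : F, p ≠ q → c * (p ^ 2 + c * p + c ^ 2) = x.2 + x'.2 →
      c * (q ^ 2 + c * q + c ^ 2) = x.2 + x'.2 → p + q + c = 0 := by
    intro p q hpq hp hq
    have h1 : c * ((p - q) * (p + q + c)) = 0 := by linear_combination hp - hq
    have h2 : (p - q) * (p + q + c) = 0 := (mul_eq_zero.mp h1).resolve_left hc0
    exact (mul_eq_zero.mp h2).resolve_left (sub_ne_zero.mpr hpq)
  have t12 := root r1 r2 hd12 hr1 hr2
  have t13 := root r1 r3 hd13 hr1 hr3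
  apply h23
  have : r2 = r3 := by linear_combination t12 - t13
  rw [hy2, hy3, this]

/-- No copy of the complete bipartite graph with three vertices on each side. -/
theorem cubeGraph_free :
    (completeBipartiteGraph (Fin 3) (Fin 3)).Free (cubeGraph F) := by
  classical
  rintro ⟨f⟩
  have hadj : ∀ i j : Fin 3, (cubeGraph F).Adj (f (Sum.inl i)) (f (Sum.inr j)) := by
    intro i j
    exact f.toHom.map_adj (by simp)
  have hne : ∀ u v : Fin 3 ⊕ Fin 3, u ≠ v → f u ≠ f v := fun u v huv h => huv (f.injective h)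
  exact cubeGraph_common (hne (Sum.inl 0) (Sum.inl 1) (by simp))
    (hne (Sum.inr 0) (Sum.inr 1) (by simp)) (hne (Sum.inr 0) (Sum.inr 2) (by simp))
    (hne (Sum.inr 1) (Sum.inr 2) (by simp))
    (hadj 0 0) (hadj 0 1) (hadj 0 2) (hadj 1 0) (hadj 1 1) (hadj 1 2)

end Pool.Agent.Lib.MP_a4c586_co
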